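import Mathlib

set_option autoImplicit false

namespace Pool.Agent.H.MP_e962e1_co

def ph (a : ℕ) : Fin 6 → ZMod 2 := fun i => if a.testBit i then 1 else 0

theorem ph_xor (a b : ℕ) : ph (a ^^^ b) = ph a + ph b := by
  funext i
  simp only [ph, Nat.testBit_xor, Pi.add_apply]
  cases a.testBit i <;> cases b.testBit i <;> decide

def ps (v : Fin 6 → ZMod 2) : ℕ := ∑ i : Fin 6, (v i).val * 2 ^ (i : ℕ)

theorem ps_ph : ∀ a < 64, ps (ph a) = a := by decide +kernel

theorem ph_inj {a b : ℕ} (ha : a < 64) (hb : b < 64) (h : ph a = ph b) : a = b := by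
  rw [← ps_ph a ha, h, ps_ph b hb]

def G (k : ℕ) : List ℕ → List ℕ → ℕ → ℤ
  | [], _, r => if r = k then 1 else 0
  | x :: L, W, r => if x ∈ W then 0 else
      G k L W r - G k L (W ++ W.map fun w => x ^^^ w) (r + 1)

theorem G_spec (g : ℕ → Polynomial ℤ) (L : List ℕ) : L.Nodup → (∀ a ∈ L, a < 64) →
    ∀ (U : Submodule (ZMod 2) (Fin 6 → ZMod 2)) (W : List ℕ),
    (∀ a ∈ W, a < 64) → (∀ v, v ∈ U ↔ ∃ a ∈ W, ph a = v) →
    ∑ X ∈ (L.map ph).toFinset.powerset, (-1 : Polynomial ℤ) ^ X.card *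
      g (Module.finrank (ZMod 2) ↥(U ⊔ Submodule.span (ZMod 2) (X : Set (Fin 6 → ZMod 2)))) =
    ∑ k ∈ Finset.range 7, (G k L W (Module.finrank (ZMod 2) U) : Polynomial ℤ) * g k := by
  induction L with
  | nil =>
    intro _ _ U W _ _
    have h : Module.finrank (ZMod 2) U ∈ Finset.range 7 := by
      have := Submodule.finrank_le U
      simp at this ⊢
      omega
    rw [Finset.sum_eq_single_of_mem _ h (fun k _ hk => by simp [G, hk.symm])]
    simp only [List.map_nil, List.toFinset_nil, Finset.powerset_empty, Finset.sum_singleton,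
      G, if_true]
    rw [Finset.coe_empty, Submodule.span_empty, sup_bot_eq]
    simp
  | cons x L ih =>
    intro hn hL U W hW hU
    have hx : x < 64 := hL x (by simp)
    have hL' : ∀ a ∈ L, a < 64 := fun a ha => hL a (by simp [ha])
    rw [List.nodup_cons] at hn
    have h1 : ph x ∉ (L.map ph).toFinset := by
      simp only [List.mem_toFinset, List.mem_map]
      rintro ⟨a, ha, h⟩
      exact hn.1 (ph_inj (hL' a ha) hx h ▸ ha)
    rw [List.map_cons, List.toFinset_cons, Finset.sum_powerset_insert h1]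
    have h2 : ∑ X ∈ (L.map ph).toFinset.powerset, (-1 : Polynomial ℤ) ^ (insert (ph x) X).card *
        g (Module.finrank (ZMod 2) ↥(U ⊔ Submodule.span (ZMod 2)
          ((insert (ph x) X : Finset _) : Set (Fin 6 → ZMod 2)))) =
        -∑ X ∈ (L.map ph).toFinset.powerset, (-1 : Polynomial ℤ) ^ X.card *
        g (Module.finrank (ZMod 2) ↥((U ⊔ Submodule.span (ZMod 2) {ph x}) ⊔
          Submodule.span (ZMod 2) (X : Set (Fin 6 → ZMod 2)))) := by
      rw [← Finset.sum_neg_distrib]
      refine Finset.sum_congr rfl fun X hX => ?_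
      rw [Finset.card_insert_of_notMem fun h => h1 (Finset.mem_powerset.1 hX h),
        Finset.coe_insert, Submodule.span_insert, sup_assoc]
      ring
    rw [h2]
    by_cases hxW : x ∈ W
    · have : U ⊔ Submodule.span (ZMod 2) {ph x} = U :=
        sup_eq_left.2 ((Submodule.span_singleton_le_iff_mem _ _).2 ((hU _).2 ⟨x, hxW, rfl⟩))
      rw [this]
      simp [G, hxW]
    · have h3 : ph x ∉ U := fun h => by
        obtain ⟨a, ha, h⟩ := (hU _).1 h
        exact hxW (ph_inj (hW a ha) hx h ▸ ha)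
      rw [ih hn.2 hL' U W hW hU, ih hn.2 hL' _ (W ++ W.map fun w => x ^^^ w),
        Submodule.finrank_sup_span_singleton h3]
      · simp only [G, hxW, if_false, Int.cast_sub, sub_mul, Finset.sum_sub_distrib]
        ring
      · intro a ha
        rcases List.mem_append.1 ha with h | h
        · exact hW a h
        · obtain ⟨w, hw, rfl⟩ := List.mem_map.1 h
          exact Nat.xor_lt_two_pow (n := 6) hx (hW w hw)
      · intro v
        rw [Submodule.mem_sup]
        constructor
        · rintro ⟨y, hy, z, hz, rfl⟩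
          obtain ⟨a, ha, rfl⟩ := (hU _).1 hy
          obtain ⟨c, rfl⟩ := Submodule.mem_span_singleton.1 hz
          have : c = 0 ∨ c = 1 := (by decide : ∀ c : ZMod 2, c = 0 ∨ c = 1) c
          rcases this with rfl | rfl
          · exact ⟨a, List.mem_append_left _ ha, by simp⟩
          · exact ⟨x ^^^ a, List.mem_append_right _ (List.mem_map_of_mem ha), by
              simp [ph_xor, add_comm]⟩
        · rintro ⟨a, ha, rfl⟩
          rcases List.mem_append.1 ha with h | h
          · exact ⟨_, (hU _).2 ⟨a, h, rfl⟩, 0, Submodule.zero_mem _, add_zero _⟩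
          · obtain ⟨w, hw, rfl⟩ := List.mem_map.1 h
            exact ⟨_, (hU _).2 ⟨w, hw, rfl⟩, _, Submodule.mem_span_singleton_self _, by
              rw [ph_xor, add_comm]⟩

def SL : List ℕ := [1, 2, 3, 4, 8, 10, 11, 13, 19, 23, 26, 32, 48, 49, 50, 51, 55, 56, 57, 58, 59]

theorem G_val : (List.range 7).map (fun k => G k SL [0] 0) =
    [1, -21, 175, -735, 1624, -1764, 720] := by decide +kernel

theorem SL_lt : ∀ a ∈ SL, a < 64 := by decide

theorem mem_S {a : ℕ} (ha : a < 64) : ph a ∈ (SL.map ph).toFinset ↔ a ∈ SL := by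
  simp only [List.mem_toFinset, List.mem_map]
  exact ⟨fun ⟨b, hb, h⟩ => ph_inj (SL_lt b hb) ha h ▸ hb, fun h => ⟨a, h, rfl⟩⟩

theorem nomod : ∀ c : Fin 6 → ZMod 2, c ≠ 0 → ∃ a ∈ SL, ∃ b ∈ SL, ∑ i, ph a i * c i ≠ 0 ∧
    ∑ i, ph b i * c i ≠ 0 ∧ a ≠ b ∧ a ^^^ b ∉ SL := by decide +kernel

theorem span_top : Submodule.span (ZMod 2) (((SL.map ph).toFinset : Finset _) :
    Set (Fin 6 → ZMod 2)) = ⊤ := by
  by_contra h
  obtain ⟨f, hf, hle⟩ := Submodule.exists_le_ker_of_lt_top _ (lt_top_iff_ne_top.2 h)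
  obtain ⟨a, ha, -, -, h1, -⟩ := nomod (fun i => f (Pi.single i 1)) fun h0 =>
    hf (LinearMap.pi_ext' fun i => LinearMap.ext_ring (congrFun h0 i))
  apply h1
  have := hle (Submodule.subset_span ((mem_S (SL_lt a ha)).2 ha))
  rw [LinearMap.mem_ker, LinearMap.pi_apply_eq_sum_univ] at this
  rw [← this]
  refine Finset.sum_congr rfl fun i _ => ?_
  rw [smul_eq_mul]
  congr 2
  funext j
  simp [Pi.single_apply, eq_comm]

end Pool.Agent.H.MP_e962e1_co
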